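import Pool.Agent.G7.Main
import Pool.Agent.G7.NonSquare
import Pool.Agent.G7.Construct

/-!
# A counterexample to `gon(C~) ≤ 2i+1 iff η ∈ C_i - C_i` for `i = 3`

Smooth projective connected curves over `ℂ` are described by their function fields
(`Pool/Agent/G7/Defs.lean`).
-/

open scoped IntermediateField
open EtaleGonality

namespace Pool.Agent.Results.MP_4f5420_ag.GonalityCounterexample

/-- **Q1 has a negative answer.**  For `i = 3` there are a curve `C` of genus `7 = 2i+1` and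
gonality `5 = i+2` and a nontrivial `η` of order two, `η = O(½ div h)`, such that the etale double
cover `C'` attached to `η` (with function field `F' = F(√h)`) has gonality at most `7 = 2i+1`,
but `η ∉ C₃ - C₃`.  The curve is `x⁷ + z⁷ = 12xz - 23x²z² + 9x³z³` and `h = xz - 4`. -/
theorem result : ∃ (F : Type) (_ : Field F) (_ : Algebra ℂ F),
    IsFunctionField F ∧ genus F = 7 ∧ HasGonality F 5 ∧
    ∃ x z : F, ℂ⟮x, z⟯ = ⊤ ∧ x ^ 7 + z ^ 7 = 12 * (x * z) - 23 * (x * z) ^ 2 + 9 * (x * z) ^ 3 ∧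
      x * z - 4 ≠ 0 ∧ (∀ P : Place F, Even (P.ord (x * z - 4))) ∧ ¬ IsSquare (x * z - 4) ∧
      ¬ InDifference (x * z - 4) 3 ∧
      ∃ (F' : Type) (_ : Field F') (_ : Algebra ℂ F') (_ : Algebra F F') (_ : IsScalarTower ℂ F F')
        (v : F'), v ^ 2 = algebraMap F F' (x * z - 4) ∧ F⟮v⟯ = ⊤ ∧ ∃ n ≤ 7, HasGonality F' n := by
  obtain ⟨F, _, _, hF, ⟨M⟩⟩ := exists_model
  have h4 : M.x * M.z - algebraMap ℂ F 4 = M.x * M.z - 4 := by rw [map_ofNat]
  refine ⟨F, inferInstance, inferInstance, hF, Model.genus_eq hF M, Model.gonality_five hF M,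
    M.x, M.z, ?_, M.rel, ?_, ?_, ?_, ?_, ?_⟩
  · exact T5.eq_top M _ (IntermediateField.subset_adjoin _ _ (by simp))
      (IntermediateField.subset_adjoin _ _ (by simp))
  · rw [← h4]; exact M.t_sub_ne_zero 4
  · rw [← h4]; exact Model.ord_h hF M
  · rw [← h4]; exact M.not_isSquare
  · rw [← h4]; exact Model.not_inDifference hF M
  · have hns := M.not_isSquare
    rw [h4] at hns
    have hirr : Irreducible (Polynomial.X ^ 2 - Polynomial.C (M.x * M.z - 4) : Polynomial F) :=
      (X_pow_sub_C_irreducible_iff_of_prime Nat.prime_two).mpr fun b hb =>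
        hns ⟨b, by rw [← hb]; ring⟩
    have hfact : Fact (Irreducible
        (Polynomial.X ^ 2 - Polynomial.C (M.x * M.z - 4) : Polynomial F)) := ⟨hirr⟩
    set f : Polynomial F := Polynomial.X ^ 2 - Polynomial.C (M.x * M.z - 4) with hf
    have hv : (AdjoinRoot.root f) ^ 2 = algebraMap F (AdjoinRoot f) (M.x * M.z - 4) := by
      have h1 := AdjoinRoot.eval₂_root f
      rw [hf] at h1
      simp only [Polynomial.eval₂_sub, Polynomial.eval₂_pow, Polynomial.eval₂_X,
        Polynomial.eval₂_C] at h1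
      exact sub_eq_zero.mp h1
    have htop : F⟮AdjoinRoot.root f⟯ = ⊤ := IntermediateField.adjoin_root_eq_top f
    refine ⟨AdjoinRoot f, inferInstance, inferInstance, inferInstance, inferInstance,
      AdjoinRoot.root f, hv, htop, ?_⟩
    obtain ⟨φ, h1, h2, h3⟩ := M.cover_degree (AdjoinRoot f) (AdjoinRoot.root f) hv htop
    have hne : ∃ d, ∃ φ : AdjoinRoot f, φ ∉ (algebraMap ℂ (AdjoinRoot f)).range ∧
        FiniteDimensional ℂ⟮φ⟯ (AdjoinRoot f) ∧
        Module.finrank ℂ⟮φ⟯ (AdjoinRoot f) = d := ⟨_, φ, h1, h2, rfl⟩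
    classical
    refine ⟨Nat.find hne, (Nat.find_min' hne ⟨φ, h1, h2, rfl⟩).trans h3, Nat.find_spec hne, ?_⟩
    intro d hd
    exact Nat.find_min' hne hd

end Pool.Agent.Results.MP_4f5420_ag.GonalityCounterexample
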